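import Pool.Agent.Lib.MP_305fdd_al.Su.Pts.Main
import Pool.Agent.Lib.MP_305fdd_al.Su.Surf
import Pool.Agent.Lib.MP_305fdd_al.VF.P.p_r01
import Pool.Agent.Lib.MP_305fdd_al.Fr.Asm.Rigid
import Pool.Agent.Lib.MP_305fdd_al.VF.Main

/-!
# MP_305fdd_al, surface groups, top file: the sphere, the torus, and the passage from finite quotients
to natural bijections
-/

set_option autoImplicit false

namespace Pool.Agent.SuTop

open Pool.Agent.Su Pool.Agent.MP_305fdd_al Pool.Agent.Lib.MP_305fdd_al

theorem surf_zero_eq (x y : SurfaceGroup 0) : x = y := by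
  have h : ∀ z : SurfaceGroup 0, z = 1 := by
    intro z
    obtain ⟨w, rfl⟩ := surfMk_surjective 0 z
    rw [Subsingleton.elim w 1, map_one]
  rw [h x, h y]

/-- the sphere -/
theorem rigid_zero : ProfinitelyRigid (SurfaceGroup 0) := by
  have e : FreeGroup (Fin 0) ≃* SurfaceGroup 0 :=
    { toFun := fun _ => 1
      invFun := fun _ => 1
      left_inv := fun _ => Subsingleton.elim _ _
      right_inv := fun _ => surf_zero_eq _ _
      map_mul' := fun _ _ => by simp }
  exact Pool.Agent.VF.rigid_of_equiv e (Pool.Agent.VF.p_r01).1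

/-- the torus group is commutative -/
theorem surf_one_comm (x y : SurfaceGroup 1) : x * y = y * x := by
  have h1 : sa 1 0 * sb 1 0 = sb 1 0 * sa 1 0 := by
    have h2 := surf_rel 1
    simp only [List.ofFn_succ, List.ofFn_zero, List.prod_cons, List.prod_nil, mul_one] at h2
    rw [mul_inv_eq_one, mul_inv_eq_iff_eq_mul] at h2
    exact h2
  have key : ∀ c : SurfaceGroup 1, (∀ z, z ∈ ({sa 1 0, sb 1 0} : Set (SurfaceGroup 1)) → z * c = c * z) →
      Subgroup.centralizer {c} = ⊤ := by
    intro c hc
    apply surf_gen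
    · intro i
      rw [Subsingleton.elim i 0, Subgroup.mem_centralizer_singleton_iff]
      exact (hc _ (Or.inl rfl))
    · intro i
      rw [Subsingleton.elim i 0, Subgroup.mem_centralizer_singleton_iff]
      exact (hc _ (Or.inr rfl))
  have hA : Subgroup.centralizer {sa 1 0} = ⊤ := by
    apply key
    rintro z (rfl | rfl)
    · rfl
    · exact h1.symm
  have hB : Subgroup.centralizer {sb 1 0} = ⊤ := by
    apply key
    rintro z (rfl | rfl)
    · exact h1
    · rfl
  have hC : Subgroup.centralizer {y} = ⊤ := by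
    apply key
    rintro z (rfl | rfl)
    · have : y ∈ Subgroup.centralizer {sa 1 0} := by rw [hA]; trivial
      exact (Subgroup.mem_centralizer_singleton_iff.1 this).symm
    · have : y ∈ Subgroup.centralizer {sb 1 0} := by rw [hB]; trivial
      exact (Subgroup.mem_centralizer_singleton_iff.1 this).symm
  have : x ∈ Subgroup.centralizer {y} := by rw [hC]; trivial
  exact Subgroup.mem_centralizer_singleton_iff.1 this

/-- homomorphisms of the torus group to a commutative group -/
theorem card_one (A : Type) [CommGroup A] : Nat.card (SurfaceGroup 1 →* A) = Nat.card A ^ 2 := by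
  let e : (SurfaceGroup 1 →* A) ≃ (Fin 1 → A) × (Fin 1 → A) :=
    { toFun := fun φ => (fun i => φ (sa 1 i), fun i => φ (sb 1 i))
      invFun := fun v => surfLift v.1 v.2 (by
        simp only [List.ofFn_succ, List.ofFn_zero, List.prod_cons, List.prod_nil, mul_one]
        rw [mul_comm (v.1 0) (v.2 0), mul_inv_cancel_right, mul_inv_cancel])
      left_inv := by
        intro φ
        apply surf_ext
        · intro i
          exact surfLift_sa _ _ _ _
        · intro i
          exact surfLift_sb _ _ _ _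
      right_inv := by
        rintro ⟨u, v⟩
        refine Prod.ext ?_ ?_
        · funext i
          exact surfLift_sa _ _ _ _
        · funext i
          exact surfLift_sb _ _ _ _ }
  rw [Nat.card_congr e, Nat.card_prod, Nat.card_fun, Nat.card_fin, pow_one, sq]

/-- the torus -/
theorem rigid_one : ProfinitelyRigid (SurfaceGroup 1) := by
  intro Λ _ hΛ
  obtain ⟨hfg, hrf, hs⟩ := hΛ
  have hGfg : Group.FG (SurfaceGroup 1) := SuPts.fg_surf 1
  obtain ⟨n, p, N, hp, hN, hrk⟩ := exists_free_quotient Λ
  obtain ⟨q, hq, hqp⟩ := Nat.exists_infinite_primes (N + 1)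
  have : Fact q.Prime := ⟨hqp⟩
  have hqN : ¬ q ∣ N := fun h => by
    have := Nat.le_of_dvd (Nat.pos_of_ne_zero hN) h
    omega
  have h1 := hrk q ⟨hqp⟩ hqN
  have h2 := card_hom_zmod q Λ
  rw [h1] at h2
  have h3 : hc Λ (Multiplicative (ZMod q)) = hc (SurfaceGroup 1) (Multiplicative (ZMod q)) :=
    hc_eq_of_same _ hs
  have h4 : hc (SurfaceGroup 1) (Multiplicative (ZMod q)) = q ^ 2 := by
    unfold hc
    rw [card_one]
    have : Nat.card (Multiplicative (ZMod q)) = q := Nat.card_zmod q
    rw [this]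
  have h5 : q ^ n = q ^ 2 := by
    rw [← h2]
    exact h3.trans h4
  have h6 : n = 2 := Nat.pow_right_injective hqp.two_le h5
  subst h6
  let k : Multiplicative (Fin 2 →₀ ℤ) →* SurfaceGroup 1 := MonoidHom.mk'
    (fun v => (sa 1 0) ^ (v.toAdd 0) * (sb 1 0) ^ (v.toAdd 1)) (by
      intro v w
      rw [toAdd_mul, Finsupp.add_apply, Finsupp.add_apply, zpow_add, zpow_add, mul_assoc,
        mul_assoc]
      congr 1
      rw [← mul_assoc, ← mul_assoc, surf_one_comm (sa 1 0 ^ (w.toAdd 0))])
  let f : Λ →* SurfaceGroup 1 := k.comp p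
  have hk : Function.Surjective k := by
    rw [← MonoidHom.range_eq_top]
    apply surf_gen
    · intro i
      rw [Subsingleton.elim i 0]
      refine ⟨Multiplicative.ofAdd (Finsupp.single 0 1), ?_⟩
      show (sa 1 0) ^ ((Finsupp.single (0 : Fin 2) (1 : ℤ)) 0) *
        (sb 1 0) ^ ((Finsupp.single (0 : Fin 2) (1 : ℤ)) 1) = sa 1 0
      rw [Finsupp.single_eq_same, Finsupp.single_eq_of_ne (by decide), zpow_one, zpow_zero, mul_one]
    · intro i
      rw [Subsingleton.elim i 0]
      refine ⟨Multiplicative.ofAdd (Finsupp.single 1 1), ?_⟩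
      show (sa 1 0) ^ ((Finsupp.single (1 : Fin 2) (1 : ℤ)) 0) *
        (sb 1 0) ^ ((Finsupp.single (1 : Fin 2) (1 : ℤ)) 1) = sb 1 0
      rw [Finsupp.single_eq_same, Finsupp.single_eq_of_ne (by decide), zpow_one, zpow_zero, one_mul]
  exact equiv_of_hc_eq f (hk.comp hp) fun Q _ _ => (hc_eq_of_same Q hs).symm

/-- **Reduction of the theorem on surface groups** to natural bijections and genus at least two. -/
theorem rigid_of_main
    (hmain : ∀ (g : ℕ), 2 ≤ g → ∀ (Λ : Type) [Group Λ], Group.FG Λ → Group.ResiduallyFinite Λ →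
      NatBij Λ (SurfaceGroup g) → Nonempty (Λ ≃* SurfaceGroup g)) (g : ℕ) :
    ProfinitelyRigid (SurfaceGroup g) := by
  by_cases h0 : g = 0
  · subst h0
    exact rigid_zero
  by_cases h1 : g = 1
  · subst h1
    exact rigid_one
  intro Λ _ hΛ
  obtain ⟨hfg, hrf, hs⟩ := hΛ
  have hGfg : Group.FG (SurfaceGroup g) := SuPts.fg_surf g
  obtain ⟨Φ⟩ := exists_natBij hs
  exact hmain g (by omega) Λ hfg hrf Φ

end Pool.Agent.SuTop
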