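import Pool.Agent.Lib.MP_305fdd_al.Su.Top.T7
import Pool.Agent.Lib.MP_305fdd_al.F8.Tower
import Pool.Agent.Lib.MP_305fdd_al.Su.Inf.Main

/-!
# MP_305fdd_al, surface groups, top file: groups in the genus of an overgroup of finite index of a
rigid group; finitely generated subgroups of surface groups
-/

set_option autoImplicit false

namespace Pool.Agent.SuTop

open Pool.Agent.Su Pool.Agent.MP_305fdd_al Pool.Agent.Lib.MP_305fdd_al

theorem same_of_natBij {G H : Type} [Group G] [Group H] (Φ : NatBij G H) :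
    SameFiniteQuotients G H := by
  intro Q _ _
  constructor
  · rintro ⟨φ, hφ⟩
    refine ⟨Φ.toFun Q φ, ?_⟩
    rw [← MonoidHom.range_eq_top, Φ.range_eq, MonoidHom.range_eq_top]
    exact hφ
  · rintro ⟨φ, hφ⟩
    refine ⟨Φ.symm.toFun Q φ, ?_⟩
    rw [← MonoidHom.range_eq_top, Φ.symm.range_eq, MonoidHom.range_eq_top]
    exact hφ

variable {S Δ Λ : Type} [Group S] [Group Δ] [Group Λ]

theorem fg_of_index (N₀ : Subgroup Δ) [N₀.FiniteIndex] (hS : Group.FG S) (e : N₀ ≃* S) :
    Group.FG Δ := by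
  have : Group.FG N₀ := Group.fg_of_surjective (f := e.symm.toMonoidHom) e.symm.surjective
  have h1 : N₀.FG := (Group.fg_iff_subgroup_fg N₀).1 this
  obtain ⟨S₁, hS₁, hf⟩ := (Subgroup.fg_iff _).1 h1
  have hq : Finite (Δ ⧸ N₀) := Subgroup.finite_quotient_of_finiteIndex
  rw [Group.fg_iff]
  refine ⟨S₁ ∪ Set.range (Quotient.out : Δ ⧸ N₀ → Δ), ?_, hf.union (Set.finite_range _)⟩
  rw [eq_top_iff]
  intro x _
  have h2 : (Quotient.out (x : Δ ⧸ N₀) : Δ)⁻¹ * x ∈ N₀ := by
    rw [← QuotientGroup.eq]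
    exact Quotient.out_eq _
  have h3 : x = Quotient.out (x : Δ ⧸ N₀) * ((Quotient.out (x : Δ ⧸ N₀) : Δ)⁻¹ * x) := by group
  rw [h3]
  refine mul_mem (Subgroup.subset_closure (Or.inr ⟨_, rfl⟩)) ?_
  have h4 : N₀ ≤ Subgroup.closure (S₁ ∪ Set.range (Quotient.out : Δ ⧸ N₀ → Δ)) := by
    conv_lhs => rw [← hS₁]
    exact Subgroup.closure_mono Set.subset_union_left
  exact h4 h2

/-- **Commensurability** (all subgroups of finite index): if `Δ` has a subgroup `N₀` of finite index
which is isomorphic to a profinitely rigid group `S`, then every `Λ` in the genus of `Δ` has a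
subgroup of the same index isomorphic to `S`. -/
theorem com_index (hS : ProfinitelyRigid S) (hfg : Group.FG S) (h : InGenus Δ Λ) (N₀ : Subgroup Δ)
    [N₀.FiniteIndex] (e : N₀ ≃* S) :
    ∃ N : Subgroup Λ, N.index = N₀.index ∧ Nonempty (N ≃* S) := by
  obtain ⟨hΛ, hrf, hs⟩ := h
  have hΔ : Group.FG Δ := fg_of_index N₀ hfg e
  obtain ⟨Φ⟩ := exists_natBij hs.symm
  let K : Subgroup Δ := N₀.normalCore
  have hK : K ≤ N₀ := Subgroup.normalCore_le N₀
  have : K.FiniteIndex := Subgroup.finiteIndex_normalCore N₀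
  have hfq : Finite (Δ ⧸ K) := Subgroup.finite_quotient_of_finiteIndex
  let π : Δ →* Δ ⧸ K := QuotientGroup.mk' K
  let T : Subgroup (Δ ⧸ K) := N₀.map π
  have hT : N₀ = T.comap π := by
    show N₀ = (N₀.map π).comap π
    rw [Subgroup.comap_map_eq, QuotientGroup.ker_mk', sup_eq_left.2 hK]
  let π' : Λ →* Δ ⧸ K := Φ.toFun _ π
  have hπ' : Function.Surjective π' := by
    rw [← MonoidHom.range_eq_top, Φ.range_eq, MonoidHom.range_eq_top]
    exact QuotientGroup.mk'_surjective K
  obtain ⟨Ψ, -⟩ := Pool.Agent.F8.natBij_comap (π := π) (π' := π') Φ rfl T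
  have hi : (T.comap π').index = N₀.index := by
    rw [Subgroup.index_comap_of_surjective _ hπ']
    conv_rhs => rw [hT]
    rw [Subgroup.index_comap_of_surjective _ (QuotientGroup.mk'_surjective K)]
  have hfi : (T.comap π').FiniteIndex := ⟨by rw [hi]; exact Subgroup.FiniteIndex.index_ne_zero⟩
  refine ⟨T.comap π', hi, hS _ ⟨?_, inferInstance, ?_⟩⟩
  · exact Subgroup.fg_of_index_ne_zero _
  · have e1 : T.comap π ≃* S := (MulEquiv.subgroupCongr hT.symm).trans e
    exact same_of_natBij (Pool.Agent.F8.natBij_equiv e1.symm Ψ).symm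

/-- **Commensurability** (normal subgroups): the quotient is the same. -/
theorem com_normal (hS : ProfinitelyRigid S) (hfg : Group.FG S) (h : InGenus Δ Λ) (N₀ : Subgroup Δ)
    [N₀.Normal] [N₀.FiniteIndex] (e : N₀ ≃* S) :
    ∃ (N : Subgroup Λ) (_ : N.Normal), Nonempty (N ≃* S) ∧ Nonempty (Λ ⧸ N ≃* Δ ⧸ N₀) := by
  obtain ⟨hΛ, hrf, hs⟩ := h
  have hΔ : Group.FG Δ := fg_of_index N₀ hfg e
  obtain ⟨Φ⟩ := exists_natBij hs.symm
  have hfq : Finite (Δ ⧸ N₀) := Subgroup.finite_quotient_of_finiteIndex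
  let π : Δ →* Δ ⧸ N₀ := QuotientGroup.mk' N₀
  let π' : Λ →* Δ ⧸ N₀ := Φ.toFun _ π
  have hπ' : Function.Surjective π' := by
    rw [← MonoidHom.range_eq_top, Φ.range_eq, MonoidHom.range_eq_top]
    exact QuotientGroup.mk'_surjective N₀
  obtain ⟨Ψ, -⟩ := Pool.Agent.F8.natBij_ker (π := π) (π' := π') Φ rfl
  refine ⟨π'.ker, inferInstance, hS _ ⟨?_, inferInstance, ?_⟩,
    ⟨QuotientGroup.quotientKerEquivOfSurjective π' hπ'⟩⟩
  · have : π'.ker.FiniteIndex := Subgroup.finiteIndex_ker π'
    exact Subgroup.fg_of_index_ne_zero _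
  · have e1 : π.ker ≃* S := (MulEquiv.subgroupCongr (QuotientGroup.ker_mk' N₀)).trans e
    exact same_of_natBij (Pool.Agent.F8.natBij_equiv e1.symm Ψ).symm

/-- a finitely generated free group is profinitely rigid -/
theorem rigid_of_isFree {H : Type} [Group H] [Group.FG H] (h : IsFreeGroup H) :
    ProfinitelyRigid H := by
  classical
  obtain ⟨X, ⟨e⟩⟩ : ∃ X : Type, Nonempty (FreeGroup X ≃* H) :=
    ⟨IsFreeGroup.Generators H, ⟨(IsFreeGroup.toFreeGroup H).symm⟩⟩
  have hfg : Group.FG (FreeGroup X) := Group.fg_of_surjective (f := e.symm.toMonoidHom)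
    e.symm.surjective
  have hX : Finite X := by
    by_contra hX
    rw [not_finite_iff_infinite] at hX
    have h1 : Finite (FreeGroup X →* Multiplicative (ZMod 2)) := finite_hom _ _
    have h2 : Finite (X → Multiplicative (ZMod 2)) := Finite.of_equiv _ FreeGroup.lift.symm
    have h3 : Function.Injective (fun (x : X) => Pi.mulSingle (M := fun _ => Multiplicative (ZMod 2))
        x (Multiplicative.ofAdd 1)) := by
      intro x y hxy
      by_contra hne
      have h4 : Pi.mulSingle (M := fun _ => Multiplicative (ZMod 2)) x (Multiplicative.ofAdd 1) x =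
        Pi.mulSingle (M := fun _ => Multiplicative (ZMod 2)) y (Multiplicative.ofAdd 1) x :=
        congrFun hxy x
      rw [Pi.mulSingle_eq_same, Pi.mulSingle_eq_of_ne hne] at h4
      exact absurd h4 (by decide)
    exact not_finite_iff_infinite.2 hX (Finite.of_injective _ h3)
  have := Fintype.ofFinite X
  have e1 : FreeGroup (Fin (Fintype.card X)) ≃* FreeGroup X :=
    FreeGroup.freeGroupCongr (Fintype.equivFin X).symm
  exact Pool.Agent.VF.rigid_of_equiv (e1.trans e) (Pool.Agent.FrAsm.rigid _)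

/-- finitely generated subgroups of infinite index of surface groups are profinitely rigid -/
theorem rigid_inf {g : ℕ} (H : Subgroup (SurfaceGroup g)) (hH : H.FG) (hi : H.index = 0) :
    ProfinitelyRigid H := by
  have : Group.FG H := (Group.fg_iff_subgroup_fg H).2 hH
  exact rigid_of_isFree (Pool.Agent.SuInf.inf_free H hi)

end Pool.Agent.SuTop
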